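import Pool.Agent.Helper66.SB.GoalsB
import Pool.Agent.Helper18.CuspMain

/-!
Project SB (MP_d3128a_ag), packet SB-SUR: prescribed restriction to the cubic `y = x^3`.
-/

set_option autoImplicit false

open Module

noncomputable section

namespace Pool.Agent.Helper84.SB

open Pool.Agent.Helper66.SB Helper18.Shgh

/-! ### The cubic -/

/-- the cubic `y - x^3` -/
def gc : R2 := MvPolynomial.X 1 - MvPolynomial.X 0 ^ 3

theorem totalDegree_gc : gc.totalDegree = 3 := by
  apply le_antisymm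
  · rw [gc]
    refine (MvPolynomial.totalDegree_sub _ _).trans (max_le ?_ ?_)
    · rw [MvPolynomial.totalDegree_X]; omega
    · rw [MvPolynomial.totalDegree_X_pow]
  · have h : MvPolynomial.coeff (Finsupp.single (0 : Fin 2) 3) gc ≠ 0 := by
      have h1 : ¬ (Finsupp.single (1 : Fin 2) 1 = Finsupp.single (0 : Fin 2) 3) := by
        intro h
        have := DFunLike.congr_fun h 0
        simp at this
      rw [gc, MvPolynomial.coeff_sub, MvPolynomial.coeff_X,
        MvPolynomial.coeff_X_pow, if_neg h1]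
      simp
    have := MvPolynomial.le_totalDegree (MvPolynomial.mem_support_iff.2 h)
    rw [Finsupp.sum_single_index rfl] at this
    exact this

theorem gc_ne_zero : gc ≠ 0 := by
  intro h
  have := totalDegree_gc
  rw [h] at this
  simp at this

theorem gc_mul_mem_V {F : R2} {n : ℤ} : gc * F ∈ V n ↔ F ∈ V (n - 3) := by
  have := mul_mem_V_iff (F := F) gc_ne_zero (n := n - 3)
  rw [totalDegree_gc] at this
  rw [← this]
  have e : n - 3 + ((3 : ℕ) : ℤ) = n := by push_cast; ring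
  rw [e]

/-- restriction to the cubic -/
def rg : R2 →ₐ[ℂ] Polynomial ℂ := MvPolynomial.aeval ![Polynomial.X, Polynomial.X ^ 3]

theorem rg_X0 : rg (MvPolynomial.X 0) = Polynomial.X := by simp [rg]
theorem rg_X1 : rg (MvPolynomial.X 1) = Polynomial.X ^ 3 := by simp [rg]

theorem rg_gc : rg gc = 0 := by
  rw [gc, map_sub, map_pow, rg_X0, rg_X1]
  ring

theorem exists_nf (F : R2) : ∃ (A : R2) (B : Polynomial ℂ),
    F = gc * A + Polynomial.aeval (MvPolynomial.X 0) B := by
  induction F using MvPolynomial.induction_on with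
  | C a =>
    refine ⟨0, Polynomial.C a, ?_⟩
    rw [Polynomial.aeval_C]
    simp [MvPolynomial.algebraMap_eq]
  | add F G hF hG =>
    obtain ⟨A, B, h⟩ := hF
    obtain ⟨A', B', h'⟩ := hG
    refine ⟨A + A', B + B', ?_⟩
    rw [map_add, h, h']
    ring
  | mul_X F i hF =>
    obtain ⟨A, B, h⟩ := hF
    fin_cases i
    · refine ⟨A * MvPolynomial.X 0, B * Polynomial.X, ?_⟩
      change F * MvPolynomial.X 0 = _
      rw [h, map_mul, Polynomial.aeval_X]
      ring
    · refine ⟨A * MvPolynomial.X 1 + Polynomial.aeval (MvPolynomial.X 0) B,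
        B * Polynomial.X ^ 3, ?_⟩
      change F * MvPolynomial.X 1 = _
      rw [h, map_mul, map_pow, Polynomial.aeval_X, gc]
      ring

theorem rg_aeval (B : Polynomial ℂ) :
    rg (Polynomial.aeval (MvPolynomial.X 0) B) = B := by
  rw [← Polynomial.aeval_algHom_apply, rg_X0, Polynomial.aeval_X_left_apply]

theorem exists_of_rg_eq_zero {F : R2} (h : rg F = 0) : ∃ G, F = gc * G := by
  obtain ⟨A, B, hF⟩ := exists_nf F
  rw [hF, map_add, map_mul, rg_gc, zero_mul, zero_add, rg_aeval] at h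
  refine ⟨A, ?_⟩
  rw [hF, h]
  simp

theorem eval_rg (z : ℂ) (F : R2) : (rg F).eval z = MvPolynomial.eval (ga z) F := by
  have h : (Polynomial.aeval z).comp rg =
      (MvPolynomial.aeval (ga z) : R2 →ₐ[ℂ] ℂ) := by
    apply MvPolynomial.algHom_ext
    intro i
    fin_cases i <;> simp [rg, ga]
  have h1 := DFunLike.congr_fun h F
  rw [AlgHom.comp_apply, Polynomial.coe_aeval_eq_eval] at h1
  rw [h1]
  rfl

theorem rg_dvd {z : ℂ} {m : ℕ} {F : R2} (h : F ∈ mI (ga z) ^ m) :
    (Polynomial.X - Polynomial.C z) ^ m ∣ rg F := by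
  have h1 : mI (ga z) ≤ Ideal.comap rg (Ideal.span {Polynomial.X - Polynomial.C z}) := by
    intro G hG
    rw [Ideal.mem_comap, Ideal.mem_span_singleton, Polynomial.dvd_iff_isRoot,
      Polynomial.IsRoot.def, eval_rg]
    exact mem_mI_iff.1 hG
  have h2 := Ideal.pow_right_mono h1 m h
  have h3 := Ideal.le_comap_pow rg m h2
  rw [Ideal.mem_comap, Ideal.span_singleton_pow, Ideal.mem_span_singleton] at h3
  exact h3

theorem DY_gc : DY gc = 1 := by
  rw [gc, map_sub, Derivation.leibniz_pow, DY,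
    MvPolynomial.pderiv_X_self, MvPolynomial.pderiv_X_of_ne (by decide)]
  simp

theorem gc_notMem (z : ℂ) : gc ∉ mI (ga z) ^ 2 := by
  intro h
  have h1 := deriv_mem_pow DY (mI (ga z)) 1 h
  rw [pow_one, mem_mI_iff, DY_gc, map_one] at h1
  exact one_ne_zero h1

/-! ### The space of restrictions -/

section

variable {r : ℕ} (t : Fin r → ℂ) (w : Fin r → ℕ)

/-- polynomials of degree `≤ 3k`, without the term `t^(3k-1)`, with the prescribed zeros -/
def EE (k : ℕ) : Submodule ℂ (Polynomial ℂ) where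
  carrier := {f | f ∈ Polynomial.degreeLT ℂ (3 * k + 1) ∧ f.coeff (3 * k - 1) = 0 ∧
    ∀ i, (Polynomial.X - Polynomial.C (t i)) ^ w i ∣ f}
  add_mem' := by
    rintro f g ⟨h1, h2, h3⟩ ⟨h4, h5, h6⟩
    refine ⟨Submodule.add_mem _ h1 h4, ?_, fun i => dvd_add (h3 i) (h6 i)⟩
    rw [Polynomial.coeff_add, h2, h5, add_zero]
  zero_mem' := ⟨Submodule.zero_mem _, Polynomial.coeff_zero _, fun i => dvd_zero _⟩
  smul_mem' := by
    rintro c f ⟨h1, h2, h3⟩
    refine ⟨Submodule.smul_mem _ c h1, ?_, fun i => ?_⟩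
    · rw [Polynomial.coeff_smul, h2, smul_zero]
    · rw [Polynomial.smul_eq_C_mul]
      exact Dvd.dvd.mul_left (h3 i) _

theorem mem_EE {k : ℕ} {f : Polynomial ℂ} : f ∈ EE t w k ↔
    f ∈ Polynomial.degreeLT ℂ (3 * k + 1) ∧ f.coeff (3 * k - 1) = 0 ∧
    ∀ i, (Polynomial.X - Polynomial.C (t i)) ^ w i ∣ f := Iff.rfl

instance (k : ℕ) : FiniteDimensional ℂ (EE t w k) :=
  Submodule.finiteDimensional_of_le (fun _ h => h.1 : EE t w k ≤ Polynomial.degreeLT ℂ (3 * k + 1))

/-- the polynomial with the prescribed zeros -/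
def PP : Polynomial ℂ := ∏ i, (Polynomial.X - Polynomial.C (t i)) ^ w i

theorem PP_monic : (PP t w).Monic :=
  Polynomial.monic_prod_of_monic _ _ fun _ _ => (Polynomial.monic_X_sub_C _).pow _

theorem natDegree_PP : (PP t w).natDegree = ∑ i, w i := by
  rw [PP, Polynomial.natDegree_prod_of_monic _ _ fun _ _ => (Polynomial.monic_X_sub_C _).pow _]
  apply Finset.sum_congr rfl
  intro i _
  rw [Polynomial.natDegree_pow, Polynomial.natDegree_X_sub_C, mul_one]

theorem PP_dvd (ht : Function.Injective t) {f : Polynomial ℂ}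
    (h : ∀ i, (Polynomial.X - Polynomial.C (t i)) ^ w i ∣ f) : PP t w ∣ f := by
  apply Finset.prod_dvd_of_coprime _ (fun i _ => h i)
  intro i _ j _ hij
  apply IsCoprime.pow
  apply Polynomial.isCoprime_X_sub_C_of_isUnit_sub
  exact (sub_ne_zero.2 fun h => hij (ht h)).isUnit

theorem finrank_EE_le (ht : Function.Injective t) {k : ℕ} (h : ∑ i, w i < 3 * k) :
    finrank ℂ (EE t w k) + ∑ i, w i ≤ 3 * k := by
  set κ := 3 * k - ∑ i, w i with hκ
  let K : Submodule ℂ (Polynomial ℂ) := Polynomial.degreeLT ℂ (κ + 1) ⊓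
    LinearMap.ker ((Polynomial.lcoeff ℂ (3 * k - 1)) ∘ₗ LinearMap.mulLeft ℂ (PP t w))
  have hmK : ∀ g, g ∈ K ↔ g ∈ Polynomial.degreeLT ℂ (κ + 1) ∧
      (PP t w * g).coeff (3 * k - 1) = 0 := fun g => Submodule.mem_inf
  have h1 : EE t w k ≤ K.map (LinearMap.mulLeft ℂ (PP t w)) := by
    rintro f ⟨h2, h3, h4⟩
    obtain ⟨g, hg⟩ := PP_dvd t w ht h4
    refine ⟨g, ?_, hg.symm⟩
    rw [SetLike.mem_coe, hmK]
    refine ⟨?_, by rw [← hg]; exact h3⟩
    rw [mem_degreeLT_iff]
    by_cases h0 : g = 0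
    · exact Or.inl h0
    · right
      rw [mem_degreeLT_iff] at h2
      have hf0 : f ≠ 0 := by
        rw [hg]; exact mul_ne_zero (PP_monic t w).ne_zero h0
      have h5 := h2.resolve_left hf0
      rw [hg, (PP_monic t w).natDegree_mul' h0, natDegree_PP] at h5
      omega
  have hKfd : FiniteDimensional ℂ K := Submodule.finiteDimensional_of_le
    (inf_le_left : K ≤ Polynomial.degreeLT ℂ (κ + 1))
  have h2 := (Submodule.finrank_mono h1).trans (Submodule.finrank_map_le _ _)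
  have h3 : K < Polynomial.degreeLT ℂ (κ + 1) := by
    refine lt_of_le_of_ne inf_le_left ?_
    intro heq
    have h4 : (Polynomial.X : Polynomial ℂ) ^ (κ - 1) ∈ Polynomial.degreeLT ℂ (κ + 1) := by
      rw [mem_degreeLT_iff, Polynomial.natDegree_X_pow]
      right; omega
    rw [← heq, hmK] at h4
    have h5 := h4.2
    have h6 : 3 * k - 1 = (PP t w).natDegree + (κ - 1) := by
      rw [natDegree_PP]; omega
    rw [h6, Polynomial.coeff_mul_X_pow, (PP_monic t w).coeff_natDegree] at h5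
    exact one_ne_zero h5
  have h4 := Submodule.finrank_lt_finrank_of_lt h3
  rw [finrank_degreeLT] at h4
  omega

end

theorem rg_monomial (e : Fin 2 →₀ ℕ) :
    rg (MvPolynomial.monomial e 1) = Polynomial.X ^ (e 0 + 3 * e 1) := by
  rw [rg, MvPolynomial.aeval_monomial, map_one, one_mul, Finsupp.prod_fintype _ _ (by simp),
    Fin.prod_univ_two]
  change (Polynomial.X : Polynomial ℂ) ^ (e 0) * (Polynomial.X ^ 3) ^ (e 1) = _
  rw [← pow_mul, ← pow_add]

theorem rg_mem_V {k : ℕ} (hk : 1 ≤ k) {F : R2} (h : F ∈ V k) :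
    rg F ∈ Polynomial.degreeLT ℂ (3 * k + 1) ⊓
      LinearMap.ker (Polynomial.lcoeff ℂ (3 * k - 1)) := by
  have key : V k ≤ (Polynomial.degreeLT ℂ (3 * k + 1) ⊓
      LinearMap.ker (Polynomial.lcoeff ℂ (3 * k - 1))).comap rg.toLinearMap := by
    rw [V, MvPolynomial.restrictSupport_eq_span, Submodule.span_le]
    rintro _ ⟨e, he, rfl⟩
    change ((e.degree : ℕ) : ℤ) ≤ k at he
    have h3 : e.degree = e 0 + e 1 := by
      rw [Finsupp.degree_eq_sum, Fin.sum_univ_two]
    rw [h3] at he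
    have h4 : e 0 + e 1 ≤ k := by exact_mod_cast he
    change rg (MvPolynomial.monomial e 1) ∈ Polynomial.degreeLT ℂ (3 * k + 1) ⊓
      LinearMap.ker (Polynomial.lcoeff ℂ (3 * k - 1))
    rw [rg_monomial, Submodule.mem_inf, mem_degreeLT_iff, Polynomial.natDegree_X_pow,
      LinearMap.mem_ker, Polynomial.lcoeff_apply, Polynomial.coeff_X_pow]
    refine ⟨Or.inr (by omega), if_neg (by omega)⟩
  exact key h

theorem rg_mem_EE {r : ℕ} {t : Fin r → ℂ} {w : Fin r → ℕ} {k : ℕ} (hk : 1 ≤ k) {F : R2}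
    (h : F ∈ SP (k : ℤ) Finset.univ (fun i => ga (t i)) w) : rg F ∈ EE t w k := by
  have h1 := rg_mem_V hk h.1
  rw [Submodule.mem_inf, LinearMap.mem_ker, Polynomial.lcoeff_apply] at h1
  exact ⟨h1.1, h1.2, fun i => rg_dvd (h.2 i (Finset.mem_univ i))⟩

theorem gc_mul_mem_SP {r : ℕ} {t : Fin r → ℂ} {w : Fin r → ℕ} {n : ℤ} {G : R2}
    (h : gc * G ∈ SP n Finset.univ (fun i => ga (t i)) w) :
    G ∈ SP (n - 3) Finset.univ (fun i => ga (t i)) (fun i => w i - 1) := by
  rw [mem_SP] at *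
  refine ⟨gc_mul_mem_V.1 h.1, fun i hi => ?_⟩
  have h3 : gc ^ 1 * G ∈ mI (ga (t i)) ^ w i := by rw [pow_one]; exact h.2 i hi
  exact mem_of_pow_mul_mem (gc_notMem (t i)) 1 h3

/-! ### Arithmetic of square classes -/

theorem sq_k {r k u : ℕ} {w : Fin r → ℕ} (h : Sq r k u w) : 1 ≤ k := by
  rcases Nat.eq_zero_or_pos k with h0 | h0
  · have h1 := h.sqr
    have h2 := h.pos
    rw [h0] at h1
    have h3 : 0 ≤ ∑ i, w i ^ 2 := Nat.zero_le _
    simp only [ne_eq, OfNat.ofNat_ne_zero, not_false_eq_true, zero_pow] at h1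
    omega
  · exact h0

theorem sq_one {r k u : ℕ} {w : Fin r → ℕ} (h : Sq r k u w) (i : Fin r) : w i + 1 ≤ k := by
  have h1 : w i ^ 2 ≤ ∑ i, w i ^ 2 :=
    Finset.single_le_sum (f := fun i => w i ^ 2) (fun _ _ => Nat.zero_le _) (Finset.mem_univ i)
  have h2 := h.sqr
  have h3 := h.pos
  have h4 : w i ^ 2 < k ^ 2 := by omega
  have := lt_of_pow_lt_pow_left' 2 h4
  omega

theorem sq_two {r k u : ℕ} {w : Fin r → ℕ} (h : Sq r k u w) {i j : Fin r} (hij : i ≠ j) :
    w i + w j ≤ k := by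
  have h1 := h.tri {i, j} ((Finset.card_le_two).trans (by norm_num))
  rwa [Finset.sum_pair hij] at h1

theorem sq_three {r k u : ℕ} {w : Fin r → ℕ} (h : Sq r k u w) {i j l : Fin r} (hij : i ≠ j)
    (hjl : j ≠ l) (hil : i ≠ l) : w i + w j + w l ≤ k := by
  have h1 := h.tri {i, j, l} Finset.card_le_three
  rw [Finset.sum_insert (by simp [hij, hil]), Finset.sum_pair hjl] at h1
  omega

/-- if all triples have sum at most `k`, then `3 ∑ w ≤ ρ k` -/
theorem triple_bound {r k : ℕ} {w : Fin r → ℕ}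
    (h : ∀ i j l : Fin r, i ≠ j → j ≠ l → i ≠ l → w i + w j + w l ≤ k) (S : Finset (Fin r))
    (hS : 3 ≤ S.card) : 3 * ∑ i ∈ S, w i ≤ S.card * k := by
  have hS1 : S.Nonempty := Finset.card_pos.1 (by omega)
  obtain ⟨a, ha, ha'⟩ := Finset.exists_max_image S w hS1
  have c1 := Finset.card_erase_of_mem ha
  have hS2 : (S.erase a).Nonempty := Finset.card_pos.1 (by omega)
  obtain ⟨b, hb, hb'⟩ := Finset.exists_max_image (S.erase a) w hS2
  have c2 := Finset.card_erase_of_mem hb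
  have hS3 : ((S.erase a).erase b).Nonempty := Finset.card_pos.1 (by omega)
  obtain ⟨c, hc, hc'⟩ := Finset.exists_max_image ((S.erase a).erase b) w hS3
  have c3 := Finset.card_erase_of_mem hc
  have e1 := Finset.add_sum_erase S w ha
  have e2 := Finset.add_sum_erase (S.erase a) w hb
  have e3 := Finset.add_sum_erase ((S.erase a).erase b) w hc
  have e4 : ∑ i ∈ ((S.erase a).erase b).erase c, w i ≤
      (((S.erase a).erase b).erase c).card * w c := by
    have := Finset.sum_le_card_nsmul (((S.erase a).erase b).erase c) w (w c)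
      (fun x hx => hc' x (Finset.mem_of_mem_erase hx))
    simpa using this
  have hab : a ≠ b := (Finset.ne_of_mem_erase hb).symm
  have hbc : b ≠ c := (Finset.ne_of_mem_erase hc).symm
  have hac : a ≠ c := (Finset.ne_of_mem_erase (Finset.mem_of_mem_erase hc)).symm
  have h1 := h a b c hab hbc hac
  have h2 : w c ≤ w b := hb' c (Finset.mem_of_mem_erase hc)
  have h3 : w b ≤ w a := ha' b (Finset.mem_of_mem_erase hb)
  have h4 : (((S.erase a).erase b).erase c).card = S.card - 3 := by omega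
  rw [h4] at e4
  obtain ⟨n, hn⟩ : ∃ n, S.card = n + 3 := ⟨S.card - 3, by omega⟩
  rw [hn] at e4 ⊢
  have h5 : 3 * w c ≤ k := by omega
  have h6 : n + 3 - 3 = n := by omega
  rw [h6] at e4
  nlinarith

theorem card_pos_le {r : ℕ} (w : Fin r → ℕ) :
    (Finset.univ.filter fun i => 1 ≤ w i - 1).card ≤ (Finset.univ.filter fun i => 1 ≤ w i).card := by
  apply Finset.card_le_card
  intro i hi
  simp only [Finset.mem_filter, Finset.mem_univ, true_and] at hi ⊢
  omega

theorem sum_sub_one {r : ℕ} (w : Fin r → ℕ) :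
    ∑ i, (w i - 1) + (Finset.univ.filter fun i => 1 ≤ w i).card = ∑ i, w i := by
  rw [Finset.card_filter, ← Finset.sum_add_distrib]
  apply Finset.sum_congr rfl
  intro i _
  split_ifs with h <;> omega

theorem sum_filter_pos {r : ℕ} (w : Fin r → ℕ) :
    ∑ i ∈ Finset.univ.filter (fun i => 1 ≤ w i), w i = ∑ i, w i := by
  rw [Finset.sum_filter]
  apply Finset.sum_congr rfl
  intro i _
  split_ifs with h <;> omega

theorem adm_sub {r k u : ℕ} {w : Fin r → ℕ} (h : Sq r k u w) :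
    Adm r ((k : ℤ) - 3) (fun i => w i - 1) := by
  have hk := sq_k h
  refine ⟨by omega, ?_, ?_, ?_⟩
  · intro i hi
    have := sq_one h i
    omega
  · intro i j hij hi hj
    have := sq_two h hij
    omega
  · intro i j l hij hjl hil hi hj hl
    have := sq_three h hij hjl hil
    omega

theorem alt_sub {r k u : ℕ} {w : Fin r → ℕ} (h : Sq r k u w) :
    (∑ i, ((w i - 1 : ℕ) : ℤ) ≤ 3 * ((k : ℤ) - 3)) ∨
      (Finset.univ.filter fun i => 1 ≤ w i - 1).card ≤ 2 := by
  have h1 := card_pos_le w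
  have h2 := sum_sub_one w
  have h3 := h.sum
  set ρ := (Finset.univ.filter fun i => 1 ≤ w i).card with hρ
  by_cases h4 : ρ ≤ 2
  · right; omega
  left
  have h5 : ∑ i, ((w i - 1 : ℕ) : ℤ) = ((∑ i, (w i - 1) : ℕ) : ℤ) := by push_cast; rfl
  rw [h5]
  by_cases h6 : 9 ≤ ρ
  · omega
  have h7 := triple_bound (fun i j l hij hjl hil => sq_three h hij hjl hil)
    (Finset.univ.filter fun i => 1 ≤ w i) (by omega)
  rw [sum_filter_pos, ← hρ] at h7
  have hk3 : 3 ≤ k := by
    have h8 : 2 < (Finset.univ.filter fun i => 1 ≤ w i).card := by omega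
    rw [Finset.two_lt_card] at h8
    obtain ⟨a, ha, b, hb, c, hc, hab, hac, hbc⟩ := h8
    simp only [Finset.mem_filter, Finset.mem_univ, true_and] at ha hb hc
    have := sq_three h hab hbc hac
    omega
  have h9 : ρ ≤ 8 := by omega
  have h10 : 3 ≤ ρ := by omega
  clear_value ρ
  interval_cases ρ <;> omega

theorem ch2_sub {r : ℕ} (k : ℤ) (w : Fin r → ℕ) :
    ch2 k Finset.univ w - ch2 (k - 3) Finset.univ (fun i => w i - 1) =
      2 * (3 * k - ∑ i, (w i : ℤ)) := by
  have h : ∀ i, (w i : ℤ) * ((w i : ℤ) + 1) =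
      ((w i - 1 : ℕ) : ℤ) * (((w i - 1 : ℕ) : ℤ) + 1) + 2 * (w i : ℤ) := by
    intro i
    rcases Nat.eq_zero_or_pos (w i) with h0 | h0
    · rw [h0]; simp
    · obtain ⟨n, hn⟩ : ∃ n, w i = n + 1 := ⟨w i - 1, by omega⟩
      rw [hn]
      simp only [Nat.add_sub_cancel]
      push_cast
      ring
  have h2 : ∑ i, (w i : ℤ) * ((w i : ℤ) + 1) =
      ∑ i, ((w i - 1 : ℕ) : ℤ) * (((w i - 1 : ℕ) : ℤ) + 1) + 2 * ∑ i, (w i : ℤ) := by
    rw [Finset.mul_sum, ← Finset.sum_add_distrib]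
    exact Finset.sum_congr rfl fun i _ => h i
  unfold ch2
  rw [h2]
  ring

theorem gSUR (hLOW : G_LOW) (hLG : G_LG) : G_SUR := by
  intro r k u w hSq t ht
  have hk := sq_k hSq
  have hsum := hSq.sum
  have h1 := hLOW r (k : ℤ) w (fun i => ga (t i)) (by omega)
  have h2 := hLG r t ht ((k : ℤ) - 3) (fun i => w i - 1) (adm_sub hSq) (alt_sub hSq)
  have h3 := ch2_sub (k : ℤ) w
  have hE := finrank_EE_le t w ht.injective hsum
  set M := SP (k : ℤ) Finset.univ (fun i => ga (t i)) w with hM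
  set M' := SP ((k : ℤ) - 3) Finset.univ (fun i => ga (t i)) (fun i => w i - 1) with hM'
  have h4 := finrank_le_of_map M M' (M.map rg.toLinearMap) rg.toLinearMap (LinearMap.mulLeft ℂ gc)
    (fun x hx => ⟨x, hx, rfl⟩)
    (by
      intro x hx h0
      obtain ⟨G, hG⟩ := exists_of_rg_eq_zero h0
      refine ⟨G, ?_, hG.symm⟩
      apply gc_mul_mem_SP
      rw [← hG]; exact hx)
  have h5 : M.map rg.toLinearMap ≤ EE t w k := by
    rintro _ ⟨x, hx, rfl⟩
    exact rg_mem_EE hk hx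
  have h6 := Submodule.finrank_mono h5
  have h7 : ∑ i, (w i : ℤ) = ((∑ i, w i : ℕ) : ℤ) := by push_cast; rfl
  rw [h7] at h3
  refine ⟨by omega, ?_⟩
  intro g hg1 hg2 hg3
  have h8 : M.map rg.toLinearMap = EE t w k := by
    apply Submodule.eq_of_le_of_finrank_le h5
    omega
  have h9 : g ∈ EE t w k := by
    refine ⟨?_, hg2, hg3⟩
    rw [mem_degreeLT_iff]
    right; omega
  rw [← h8] at h9
  obtain ⟨F, hF, hF2⟩ := h9
  exact ⟨F, hF, hF2⟩

end Pool.Agent.Helper84.SB
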